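import Pool.Agent.CG.Weak
import Pool.Agent.CG.Elliptic

/-!
# MP_040330_an: `C^{1,α}` regularity in every Carnot group

Every weak solution `u ∈ HW^{1,p}_loc(Ω)` of `∑ X_i A_i(∇_0 u) = 0` in an open subset `Ω` of an
arbitrary Carnot group (of any step) has a locally Hölder continuous horizontal gradient, for all
`1 < p < ∞` and all structure functions `A` (elliptic of `p`-Laplacian type, `δ ≥ 0`).
-/

set_option autoImplicit false

namespace Pool.Agent.Results.MP_040330_an.C1AlphaCarnot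

open Pool.Agent.CG MeasureTheory Set

/-- Let `G` be a Carnot group of any step, in exponential coordinates on `ℝ^N`, with first layer of
dimension `m`, and let `1 < p < ∞`, `0 < λ`, `Λ` be given.  There is an exponent `α ∈ (0,1)` such that
for every `δ ≥ 0`, every structure function `A : ℝ^m → ℝ^m`, every open `Ω` and every weak solution
`u ∈ HW^{1,p}_loc(Ω)` of `∑ X_i A_i(∇_0 u) = 0` in `Ω`, the horizontal gradient `F = ∇_0 u` has a
representative `F'` that is Hölder continuous with exponent `α` on every compact subset of `Ω`. -/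
theorem result {N m : ℕ} (G : Carnot N m) (p : ℝ) (hp : 1 < p) (lam Lam : ℝ) (hlam : 0 < lam) :
    ∃ α : ℝ, 0 < α ∧ α < 1 ∧ ∀ (δ : ℝ), 0 ≤ δ → ∀ A : Hv m → Hv m, Elliptic p δ lam Lam A →
    ∀ (Ω : Set (Pt N)), IsOpen Ω → ∀ (u : Pt N → ℝ) (F : Pt N → Hv m),
    Sol G (ENNReal.ofReal p) Ω A u F →
    ∃ F' : Pt N → Hv m, (∀ᵐ x, x ∈ Ω → F x = F' x) ∧
      ∀ K : Set (Pt N), IsCompact K → K ⊆ Ω →
        ∃ C : ℝ, ∀ x ∈ K, ∀ y ∈ K, ‖F' x - F' y‖ ≤ C * ‖x - y‖ ^ α := by
  obtain ⟨α, h0, h1, h⟩ := weak_reg (Lam := Lam) G hp hlam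
  exact ⟨α, h0, h1, fun δ hδ A hA => h δ hδ A (hA.structA hlam hδ)⟩

end Pool.Agent.Results.MP_040330_an.C1AlphaCarnot
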